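import Pool.Agent.K3h88.Erde.Stm

/-!
# Part II: the torus of odd dimension `m`, cut into `2 ^ a` paths
-/

set_option autoImplicit false

namespace Pool.Agent.K3h88.Erde

open Classical

/-- unit vector with a natural number index -/
noncomputable def ev (m L j : ℕ) : Fin m → ZMod L := fun i => if (i : ℕ) = j then 1 else 0

/-- indicator of the coordinates below `p` -/
noncomputable def st (m L p : ℕ) : Fin m → ZMod L := fun i => if (i : ℕ) < p then 1 else 0

namespace GD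

variable {m a : ℕ} (G : GD m a)

/-- increments of the path `b`, closed up at the end -/
noncomputable def c (l : ℕ) : Fin a → ZMod 2 := if l + 1 < m then G.b l + G.b (l + 1) else G.b l

/-- the colour of a vertex -/
noncomputable def chi (L : ℕ) (y : Fin m → ZMod L) : Fin a → ZMod 2 :=
  ∑ l : Fin m, (ZMod.cast (y l) : ZMod 2) • G.c l

/-- the value of the last coordinate at stage `s` -/
noncomputable def vv (L s : ℕ) : ZMod L := (((G.b (s + 1) (G.κ s)).val : ℕ) : ZMod L)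

/-- the places where stage `s` acts -/
def A (L s : ℕ) (z : Fin m → ZMod L) : Prop :=
  (∀ i : Fin m, (i : ℕ) = m - 1 → z i = G.vv L s) ∧
    ∀ i : Fin m, (i : ℕ) < s → (G.nx i + 1 < m → z i = 0) ∧
      (¬ G.nx i + 1 < m → z i = 0 ∨ z i = 1)

/-- the role condition of stage `s` -/
def role (L s : ℕ) (z : Fin m → ZMod L) : Prop := G.chi L z (G.κ s) ≠ G.b (s + 1) (G.κ s)

/-- `chi z + b (lam s z l)` is the colour of the edge from `z` to `z + e_l` after the stages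
`0, ..., s - 1` -/
noncomputable def lam (L : ℕ) : ℕ → (Fin m → ZMod L) → ℕ → ℕ
  | 0, _, l => l
  | s + 1, z, l =>
      if G.A L s z then
        (if G.nx s + 1 < m then
          (if G.role L s z then (if l = s then G.nx s else if l = G.nx s then s else lam L s z l)
           else lam L s z l)
         else (if l = s then s + 1 else lam L s z l))
      else lam L s z l

/-- colour of the edge from `z` to `z + e_l` -/
noncomputable def T (L s : ℕ) (z : Fin m → ZMod L) (l : ℕ) : Fin a → ZMod 2 :=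
  G.chi L z + G.b (G.lam L s z l)

/-- the vector of stage `s` -/
noncomputable def ww (L s : ℕ) : Fin m → ZMod L :=
  if G.nx s + 1 < m then ev m L s - ev m L (G.nx s) else ev m L s + ev m L s

/-- the group generated by `(1, ..., 1)` and the vectors of the stages `0, ..., s - 1` -/
noncomputable def D (L s : ℕ) : AddSubgroup (Fin m → ZMod L) :=
  AddSubgroup.closure ({w | w = st m L m} ∪ {w | ∃ i, i < s ∧ w = G.ww L i})

/-- position of `δ` on the path `b` -/
noncomputable def pidx (δ : Fin a → ZMod 2) : ℕ :=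
  if h : ∃ p, p < m ∧ G.b p = δ then h.choose else 0

/-- the vertices that are met by colour `α` -/
def Cov (L : ℕ) (α : Fin a → ZMod 2) (z : Fin m → ZMod L) : Prop :=
  ∃ p, p < m ∧ G.b p = G.chi L z + α

/-- the component index -/
noncomputable def phi (L : ℕ) (α : Fin a → ZMod 2) (z : Fin m → ZMod L) : Fin m → ZMod L :=
  z - st m L (G.pidx (G.chi L z + α))

/-- the graph of colour `α` after the stages `0, ..., s - 1` -/
noncomputable def gr (L s : ℕ) (α : Fin a → ZMod 2) : SimpleGraph (Fin m → ZMod L) :=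
  SimpleGraph.fromRel (fun y z => ∃ l, l < m ∧ z = y + ev m L l ∧ G.T L s y l = α)

end GD

/-- brick ALG: the algebra of the groups `D s` and the places `A s` -/
structure AlgProps {m a : ℕ} (G : GD m a) (L : ℕ) : Prop where
  chi_add : ∀ y z, G.chi L (y + z) = G.chi L y + G.chi L z
  chi_ev : ∀ l, l < m → G.chi L (ev m L l) = G.c l
  norm : ∀ s, s + 1 < m → ∀ y, ∃ d ∈ G.D L s, G.A L s (y + d)
  uniq : ∀ s, s + 1 < m → ∀ y z, G.A L s y → G.A L s z → y - z ∈ G.D L s → y = z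
  ker : ∀ y, G.chi L y = 0 → y ∈ G.D L (m - 1)
  le_ker : ∀ s, s + 1 ≤ m → ∀ y ∈ G.D L s, G.chi L y = 0
  surj : ∀ (δ : Fin a → ZMod 2) (t : ZMod L), ∃ y, (∀ i : Fin m, (i : ℕ) = m - 1 → y i = t) ∧
    G.chi L y = δ
  count : ∀ (t : ℕ) (δ : Fin a → ZMod 2), L = 4 ^ t →
    Nat.card {y : Fin m → ZMod L // G.chi L y = δ} = 2 ^ (2 * m * t - a)

def StmAlg : Prop := ∀ (m a : ℕ) (G : GD m a) (L : ℕ), 4 ≤ L → 2 ∣ L → AlgProps G L

/-- brick LAM: the colouring function -/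
structure LamProps {m a : ℕ} (G : GD m a) (L : ℕ) : Prop where
  lam_s : ∀ s z, s + 1 < m → G.A L s z → G.lam L s z s = s
  lam_n : ∀ s z, G.nx s + 1 < m → G.A L s z → G.lam L s z (G.nx s) = G.nx s
  lam_last : ∀ s z, s + 1 ≤ m → G.lam L s z (m - 1) = m - 1
  lam_two : ∀ s z l, (∀ i : Fin m, (i : ℕ) = m - 1 → z i ≠ 0 ∧ z i ≠ 1) → G.lam L s z l = l
  lam_lt : ∀ s z l, s + 1 ≤ m → l < m → G.lam L s z l < m
  lam_form : ∀ s z l, s + 1 ≤ m → l < m → G.lam L s z l = l ∨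
    (l < s ∧ G.nx l + 1 < m ∧ G.lam L s z l = G.nx l) ∨
    (l < s ∧ ¬ G.nx l + 1 < m ∧ G.lam L s z l = l + 1) ∨
    (∃ j, j < s ∧ G.nx j = l ∧ G.nx j + 1 < m ∧ G.lam L s z l = j)

def StmLam : Prop := ∀ (m a : ℕ) (G : GD m a) (L : ℕ), 4 ≤ L → 2 ∣ L → LamProps G L

/-- brick COL: every vertex keeps the colours of its darts; edges respect the groups `D s` -/
structure ColProps {m a : ℕ} (G : GD m a) (L : ℕ) : Prop where
  nb : ∀ s (α : Fin a → ZMod 2) z, s + 1 ≤ m → G.Cov L α z →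
    ((G.gr L s α).neighborSet z).ncard = 2
  nb0 : ∀ s (α : Fin a → ZMod 2) z, s + 1 ≤ m → ¬ G.Cov L α z →
    (G.gr L s α).neighborSet z = ∅

def StmCol : Prop := ∀ (m a : ℕ) (G : GD m a) (L : ℕ), 4 ≤ L → 2 ∣ L → AlgProps G L →
  LamProps G L → ColProps G L

def StmCongr : Prop := ∀ (m a : ℕ) (G : GD m a) (L : ℕ), 4 ≤ L → 2 ∣ L → AlgProps G L →
  LamProps G L → ∀ s (α : Fin a → ZMod 2) y z, s + 1 ≤ m → (G.gr L s α).Adj y z →
    G.phi L α y - G.phi L α z ∈ G.D L s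

/-- brick AML: the merging lemma -/
def StmAML : Prop := ∀ (V X : Type) [Finite V] [AddCommGroup X] (H H' : SimpleGraph V)
  (W : Set V) (φ : V → X) (D : AddSubgroup X) (w : X),
  (∀ y, y ∈ W → (H.neighborSet y).ncard = 2) → (∀ y, y ∉ W → H.neighborSet y = ∅) →
  (∀ y z, H.Adj y z → φ y - φ z ∈ D) →
  (∀ y z, y ∈ W → z ∈ W → φ y - φ z ∈ D → H.Reachable y z) →
  (∀ y y' z z', H.Adj y y' → ¬ H'.Adj y y' → H.Adj z z' → ¬ H'.Adj z z' → φ y - φ z ∈ D →
    s(y, y') = s(z, z')) →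
  (∀ y, y ∈ W → ∃ z z', z ∈ W ∧ z' ∈ W ∧ φ z - φ y ∈ D ∧ φ z' - φ y - w ∈ D ∧
    H'.Adj z z') →
  (IsOfFinAddOrder w) →
  ∀ y z, y ∈ W → z ∈ W → φ y - φ z ∈ D ⊔ AddSubgroup.zmultiples w → H'.Reachable y z

/-- brick CONN0: the components of the initial colouring -/
def StmConn0 : Prop := ∀ (m a : ℕ) (G : GD m a) (L : ℕ), 4 ≤ L → 2 ∣ L → AlgProps G L →
  ∀ (α : Fin a → ZMod 2) y z, G.Cov L α y → G.Cov L α z →
    G.phi L α y - G.phi L α z ∈ G.D L 0 → (G.gr L 0 α).Reachable y z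

/-- brick CONN: the components -/
def StmConn : Prop := ∀ (m a : ℕ) (G : GD m a) (L : ℕ), 4 ≤ L → 2 ∣ L → AlgProps G L →
  LamProps G L → ColProps G L →
  (∀ s (α : Fin a → ZMod 2) y z, s + 1 ≤ m → (G.gr L s α).Adj y z →
    G.phi L α y - G.phi L α z ∈ G.D L s) →
  (∀ (α : Fin a → ZMod 2) y z, G.Cov L α y → G.Cov L α z →
    G.phi L α y - G.phi L α z ∈ G.D L 0 → (G.gr L 0 α).Reachable y z) →
  ∀ s (α : Fin a → ZMod 2) y z, s + 1 ≤ m → G.Cov L α y → G.Cov L α z →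
    G.phi L α y - G.phi L α z ∈ G.D L s → (G.gr L s α).Reachable y z

/-- brick CYC: a connected graph with all degrees `2` or `0` is a cycle; start with a given
edge -/
def StmCyc : Prop := ∀ (V : Type) [Finite V] (H : SimpleGraph V) (W : Set V),
  (∀ y, y ∈ W → (H.neighborSet y).ncard = 2) → (∀ y, y ∉ W → H.neighborSet y = ∅) →
  (∀ y z, y ∈ W → z ∈ W → H.Reachable y z) → ∀ u v, H.Adj u v →
  ∃ c : ℕ → V, IsCyc c W.ncard ∧ c 0 = u ∧ c 1 = v ∧ (∀ y, y ∈ W ↔ ∃ j, j < W.ncard ∧ c j = y) ∧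
    H.edgeSet = pE c W.ncard

/-- brick EX: exchange of two edges turns two cycles into two paths -/
def StmEx : Prop := ∀ (V : Type) (M : ℕ) (c c' : ℕ → V), IsCyc c M → IsCyc c' M → c 0 = c' 0 →
  (∀ j, j < M → c j ≠ c' 1) → (∀ j, j < M → c' j ≠ c 1) → Disjoint (pE c M) (pE c' M) →
  DecN (IsPk M) 2 (pE c M ∪ pE c' M)

/-- brick PATHS -/
def StmPaths : Prop := ∀ (m a t : ℕ) (G : GD m a), 1 ≤ t → AlgProps G (4 ^ t) →
  LamProps G (4 ^ t) → ColProps G (4 ^ t) →
  (∀ (α : Fin a → ZMod 2) y z, G.Cov (4 ^ t) α y → G.Cov (4 ^ t) α z →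
    (G.gr (4 ^ t) (m - 1) α).Reachable y z) →
  DecN (IsPk (m * 2 ^ (2 * m * t - a))) (2 ^ a) (torE m (4 ^ t))

/-! ### The final statement -/

/-- The hypercube graph `Q_n`: vertices are the 0/1-vectors of length `n`, two vertices are
adjacent when they differ in exactly one coordinate. -/
def cube (n : ℕ) : SimpleGraph (Fin n → Bool) where
  Adj x y := ∃! i, x i ≠ y i
  symm := ⟨fun x y h => by
    obtain ⟨i, hi, h2⟩ := h
    exact ⟨i, fun h => hi h.symm, fun j hj => h2 j fun h => hj h.symm⟩⟩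
  loopless := ⟨fun x h => by
    obtain ⟨i, hi, _⟩ := h
    exact hi rfl⟩

/-- `E(G)` is a disjoint union of edge sets of subgraphs of `G`, each isomorphic to the path
`P_{k+1}` with `k + 1` vertices and `k` edges. -/
def PartitionIntoPaths {V : Type} (G : SimpleGraph V) (k : ℕ) : Prop :=
  ∃ (ι : Type) (H : ι → G.Subgraph),
    (∀ i, Nonempty ((H i).coe ≃g SimpleGraph.pathGraph (k + 1))) ∧
    (∀ i j, i ≠ j → Disjoint (H i).edgeSet (H j).edgeSet) ∧
    (⋃ i, (H i).edgeSet) = G.edgeSet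

/-- brick FA -/
def StmFA : Prop := ∀ n k r : ℕ, 1 ≤ k → DecN (IsPk k) r (cubeE (Fin n)) →
  PartitionIntoPaths (cube n) k

/-- brick FB -/
def StmFB : Prop := ∀ n k : ℕ, Even n → 2 ≤ n → 1 ≤ k → k ≤ 2 ^ n - 1 → k ∣ n * 2 ^ (n - 1) →
  ∃ r, DecN (IsPk k) r (cubeE (Fin n))

end Pool.Agent.K3h88.Erde
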