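import Mathlib

/-!
# Definitions for the decomposition of even hypercubes into paths (Erde's conjecture)
-/

set_option autoImplicit false

namespace Pool.Agent.K3h88.Erde

/-- The set of edges `s(f j, f (j+1))`, `j < k`, of a sequence of vertices. -/
def pE {V : Type} (f : ℕ → V) (k : ℕ) : Set (Sym2 V) := {e | ∃ j, j < k ∧ e = s(f j, f (j + 1))}

/-- `F` is the edge set of a path with `k` edges (and `k + 1` distinct vertices). -/
def IsPk {V : Type} (k : ℕ) (F : Set (Sym2 V)) : Prop :=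
  ∃ f : ℕ → V, Set.InjOn f (Set.Iic k) ∧ F = pE f k

/-- `c 0, c 1, ..., c M = c 0` is a closed sequence without other repetition. -/
def IsCyc {V : Type} (c : ℕ → V) (M : ℕ) : Prop :=
  3 ≤ M ∧ c M = c 0 ∧ Set.InjOn c (Set.Iio M)

/-- `F` is the edge set of a Hamiltonian cycle. -/
def IsHC {V : Type} (F : Set (Sym2 V)) : Prop :=
  ∃ (M : ℕ) (c : ℕ → V), IsCyc c M ∧ (∀ v, ∃ j, j < M ∧ c j = v) ∧ F = pE c M

/-- `E` is the disjoint union of `r` sets with the property `P`. -/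
def DecN {V : Type} (P : Set (Sym2 V) → Prop) (r : ℕ) (E : Set (Sym2 V)) : Prop :=
  ∃ F : Fin r → Set (Sym2 V), (∀ i, P (F i)) ∧ (∀ i j, i ≠ j → Disjoint (F i) (F j)) ∧
    E = ⋃ i, F i

/-- The edge set of the hypercube with index set `ι`. -/
def cubeE (ι : Type) [DecidableEq ι] : Set (Sym2 (ι → Bool)) :=
  {e | ∃ (x : ι → Bool) (i : ι), e = s(x, Function.update x i (!x i))}

/-- The edge set of the Cartesian product. -/
def boxE {V W : Type} (D : Set (Sym2 V)) (E : Set (Sym2 W)) : Set (Sym2 (V × W)) :=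
  {e | (∃ x x' y, s(x, x') ∈ D ∧ e = s((x, y), (x', y))) ∨
    (∃ x y y', s(y, y') ∈ E ∧ e = s((x, y), (x, y')))}

/-- The edge set of the Cartesian power. -/
def powE (ι : Type) [DecidableEq ι] {W : Type} (E : Set (Sym2 W)) : Set (Sym2 (ι → W)) :=
  {e | ∃ (z : ι → W) (i : ι) (w : W), s(z i, w) ∈ E ∧ e = s(z, Function.update z i w)}

/-- The edge set of the cycle on `ZMod A`. -/
def cyE (A : ℕ) : Set (Sym2 (ZMod A)) := {e | ∃ u : ZMod A, e = s(u, u + 1)}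

/-- The edge set of the torus. -/
def torE (m L : ℕ) : Set (Sym2 (Fin m → ZMod L)) :=
  {e | ∃ (y : Fin m → ZMod L) (i : Fin m), e = s(y, y + Pi.single i 1)}

/-! ### Plumbing -/

/-- brick P1 -/
def StmP1a : Prop := ∀ (V W : Type) (P : Set (Sym2 V) → Prop) (P' : Set (Sym2 W) → Prop)
  (φ : V → W) (r : ℕ) (E : Set (Sym2 V)), Function.Injective φ → DecN P r E →
  (∀ F, P F → P' (Sym2.map φ '' F)) → DecN P' r (Sym2.map φ '' E)

def StmP1b : Prop := ∀ (V W : Type) (φ : V → W) (k : ℕ) (F : Set (Sym2 V)),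
  Function.Injective φ → IsPk k F → IsPk k (Sym2.map φ '' F)

def StmP1c : Prop := ∀ (V W : Type) (φ : V → W) (F : Set (Sym2 V)),
  Function.Bijective φ → IsHC F → IsHC (Sym2.map φ '' F)

def StmP1d : Prop := ∀ (V : Type) (P : Set (Sym2 V) → Prop) (r t : ℕ) (D E : Set (Sym2 V)),
  Disjoint D E → DecN P r D → DecN P t E → DecN P (r + t) (D ∪ E)

def StmP1e : Prop := ∀ (V : Type) (P P' : Set (Sym2 V) → Prop) (r t : ℕ) (E : Set (Sym2 V)),
  DecN P r E → (∀ F, P F → DecN P' t F) → DecN P' (r * t) E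

/-- splitting the family of parts -/
def StmP1f : Prop := ∀ (V : Type) (P : Set (Sym2 V) → Prop) (r t : ℕ) (E : Set (Sym2 V)),
  DecN P (r + t) E → ∃ D D', E = D ∪ D' ∧ Disjoint D D' ∧ DecN P r D ∧ DecN P t D'

/-- cutting a path -/
def StmP2a : Prop := ∀ (V : Type) (k c : ℕ) (F : Set (Sym2 V)), 1 ≤ k → IsPk (k * c) F →
  DecN (IsPk k) c F

/-- cutting a Hamiltonian cycle -/
def StmP2b : Prop := ∀ (V : Type) [Fintype V] (k c : ℕ) (F : Set (Sym2 V)), 1 ≤ k → 2 ≤ c →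
  Fintype.card V = k * c → IsHC F → DecN (IsPk k) c F

/-- a Hamiltonian cycle in terms of `ZMod` -/
def StmP2c : Prop := ∀ (V : Type) [Fintype V] (F : Set (Sym2 V)), IsHC F →
  3 ≤ Fintype.card V ∧ ∃ φ : ZMod (Fintype.card V) → V, Function.Bijective φ ∧
    F = Sym2.map φ '' cyE (Fintype.card V)

/-- products of decompositions, paired by index -/
def StmP3a : Prop := ∀ (V W : Type) (P : Set (Sym2 V) → Prop) (P' : Set (Sym2 W) → Prop)
  (P'' : Set (Sym2 (V × W)) → Prop) (r t : ℕ) (D : Set (Sym2 V)) (E : Set (Sym2 W)),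
  (∀ F, P F → ∀ x, s(x, x) ∉ F) → (∀ F, P' F → ∀ x, s(x, x) ∉ F) →
  DecN P r D → DecN P' r E → (∀ D' E', P D' → P' E' → DecN P'' t (boxE D' E')) →
  DecN P'' (r * t) (boxE D E)

/-- disjoint unions of products -/
def StmP3b : Prop := ∀ (V W : Type) (D D' : Set (Sym2 V)) (E E' : Set (Sym2 W)),
  (∀ x, s(x, x) ∉ D ∪ D') → (∀ x, s(x, x) ∉ E ∪ E') → Disjoint D D' → Disjoint E E' →
  boxE (D ∪ D') (E ∪ E') = boxE D E ∪ boxE D' E' ∧ Disjoint (boxE D E) (boxE D' E')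

def StmP3c : Prop := ∀ (V W V' W' : Type) (φ : V → V') (ψ : W → W') (D : Set (Sym2 V))
  (E : Set (Sym2 W)), Function.Bijective φ → Function.Bijective ψ →
  boxE (Sym2.map φ '' D) (Sym2.map ψ '' E) = Sym2.map (Prod.map φ ψ) '' boxE D E

/-- powers of decompositions -/
def StmP3d : Prop := ∀ (ι : Type) [DecidableEq ι] (W : Type) (P : Set (Sym2 W) → Prop)
  (P'' : Set (Sym2 (ι → W)) → Prop) (r t : ℕ) (E : Set (Sym2 W)),
  (∀ F, P F → ∀ x, s(x, x) ∉ F) → DecN P r E → (∀ E', P E' → DecN P'' t (powE ι E')) →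
  DecN P'' (r * t) (powE ι E)

/-- the power of a cycle is a torus -/
def StmP3e : Prop := ∀ (m L : ℕ) (W : Type) (φ : ZMod L → W), Function.Bijective φ →
  powE (Fin m) (Sym2.map φ '' cyE L) = Sym2.map (fun y : Fin m → ZMod L => fun i => φ (y i)) ''
    torE m L

def StmP4a : Prop := ∀ (ι κ : Type) [DecidableEq ι] [DecidableEq κ] (e : ι ≃ κ),
  cubeE κ = Sym2.map (fun x : ι → Bool => fun j => x (e.symm j)) '' cubeE ι

def StmP4b : Prop := ∀ (ι κ : Type) [DecidableEq ι] [DecidableEq κ],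
  cubeE (ι ⊕ κ) = Sym2.map (fun p : (ι → Bool) × (κ → Bool) => Sum.elim p.1 p.2) ''
    boxE (cubeE ι) (cubeE κ)

def StmP4c : Prop := ∀ (ι κ : Type) [DecidableEq ι] [DecidableEq κ],
  cubeE (ι × κ) = Sym2.map (fun z : ι → (κ → Bool) => fun p : ι × κ => z p.1 p.2) ''
    powE ι (cubeE κ)

/-! ### Part I: Hamiltonian decompositions of even cubes -/

/-- the product of two cycles -/
def StmK0 : Prop := ∀ A B : ℕ, 3 ≤ B → B ∣ A → 0 < A → Nat.Coprime (B - 1) A →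
  DecN IsHC 2 (boxE (cyE A) (cyE B))

/-- the product of two Hamiltonian cycles -/
def StmK1 : Prop := ∀ (V W : Type) [Fintype V] [Fintype W] (x y : ℕ) (D : Set (Sym2 V))
  (E : Set (Sym2 W)), 1 ≤ x → 1 ≤ y → Fintype.card V = 4 ^ x → Fintype.card W = 4 ^ y →
  IsHC D → IsHC E → DecN IsHC 2 (boxE D E)

/-- the successor of the second cycle in terms of the time of the first one -/
def sg (A B : ℕ) (t : ZMod (A * B)) : ZMod (A * B) :=
  if t.val % B = B - 1 then t - ((B - 1 : ℕ) : ZMod (A * B)) else t + ((B + 1 : ℕ) : ZMod (A * B))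

/-- the edges of the second cycle -/
def sgE (A B : ℕ) : Set (Sym2 (ZMod (A * B))) := {e | ∃ t, e = s(t, sg A B t)}

/-- the base torus in terms of the time of the first cycle -/
def StmT0a : Prop := ∀ A B : ℕ, 3 ≤ B → B ∣ A → 0 < A → Nat.Coprime (B - 1) A →
  ∃ φ : ZMod (A * B) → ZMod A × ZMod B, Function.Bijective φ ∧
    boxE (cyE A) (cyE B) = Sym2.map φ '' (cyE (A * B) ∪ sgE A B) ∧
    Disjoint (cyE (A * B)) (sgE A B)

/-- three Hamiltonian cycles in the product of the base torus and a cycle -/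
def StmT0b : Prop := ∀ A B : ℕ, 4 ≤ B → B ∣ A → 0 < A → Nat.Coprime (B - 1) A →
  DecN IsHC 3 (boxE (cyE (A * B) ∪ sgE A B) (cyE B))

/-- the special places of the rule of the two cycles `X`, `Y` -/
def sp (A B : ℕ) (t : ZMod (A * B)) (w : ZMod B) : Prop := (t.val + w.val) % B = B - 1

/-- the place of the switch between the levels `c` and `c + 1` -/
def tc (A B c : ℕ) : ZMod (A * B) :=
  if c = 0 then ((B * (B - 2) : ℕ) : ZMod (A * B)) else ((B * c - 1 : ℕ) : ZMod (A * B))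

/-- first cycle -/
def XE (A B : ℕ) : Set (Sym2 (ZMod (A * B) × ZMod B)) :=
  {e | (∃ t w, sp A B t w ∧ e = s((t, w), (t, w + 1))) ∨
    (∃ t w, ¬ sp A B t w ∧ e = s((t, w), (t + 1, w)))}

/-- second cycle -/
def YE (A B : ℕ) : Set (Sym2 (ZMod (A * B) × ZMod B)) :=
  {e | (∃ t w, sp A B t w ∧ e = s((t, w), (t + 1, w))) ∨
    (∃ t w, ¬ sp A B t w ∧
      (¬ ∃ c, c < B - 1 ∧ w = (c : ZMod B) ∧ (t = tc A B c ∨ t = sg A B (tc A B c))) ∧
      e = s((t, w), (t, w + 1))) ∨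
    (∃ c, c < B - 1 ∧ (e = s((tc A B c, (c : ZMod B)), (sg A B (tc A B c), (c : ZMod B))) ∨
      e = s((tc A B c, (c : ZMod B) + 1), (sg A B (tc A B c), (c : ZMod B) + 1))))}

/-- third cycle -/
def ZE (A B : ℕ) : Set (Sym2 (ZMod (A * B) × ZMod B)) :=
  {e | (∃ t w, (¬ ∃ c, c < B - 1 ∧ t = tc A B c ∧ (w = (c : ZMod B) ∨ w = (c : ZMod B) + 1)) ∧
      e = s((t, w), (sg A B t, w))) ∨
    (∃ c, c < B - 1 ∧ (e = s((tc A B c, (c : ZMod B)), (tc A B c, (c : ZMod B) + 1)) ∨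
      e = s((sg A B (tc A B c), (c : ZMod B)), (sg A B (tc A B c), (c : ZMod B) + 1))))}

def StmT0X : Prop := ∀ A B : ℕ, 4 ≤ B → B ∣ A → 0 < A → Nat.Coprime (B - 1) A → IsHC (XE A B)

def StmT0Y : Prop := ∀ A B : ℕ, 4 ≤ B → B ∣ A → 0 < A → Nat.Coprime (B - 1) A → IsHC (YE A B)

def StmT0Z : Prop := ∀ A B : ℕ, 4 ≤ B → B ∣ A → 0 < A → Nat.Coprime (B - 1) A → IsHC (ZE A B)

def StmT0D : Prop := ∀ A B : ℕ, 4 ≤ B → B ∣ A → 0 < A →
  boxE (cyE (A * B) ∪ sgE A B) (cyE B) = XE A B ∪ YE A B ∪ ZE A B ∧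
    Disjoint (XE A B) (YE A B) ∧ Disjoint (XE A B) (ZE A B) ∧ Disjoint (YE A B) (ZE A B)

/-- the product of three Hamiltonian cycles -/
def StmT1 : Prop := ∀ (V W W' : Type) [Fintype V] [Fintype W] [Fintype W'] (x y : ℕ)
  (D : Set (Sym2 V)) (C : Set (Sym2 W)) (C' : Set (Sym2 W')), 1 ≤ y → y ≤ x →
  Fintype.card V = 4 ^ x → Fintype.card W = 4 ^ y → Fintype.card W' = 4 ^ y →
  IsHC D → IsHC C → IsHC C' → DecN IsHC 3 (boxE D (boxE C C'))

/-- `Q_10` -/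
def StmH5 : Prop := DecN IsHC 5 (cubeE (Fin 10))

/-- Hamiltonian decompositions of all even cubes -/
def StmHCD : Prop := ∀ s : ℕ, 1 ≤ s → DecN IsHC s (cubeE (Fin (2 * s)))

/-! ### Part II: the torus of odd dimension -/

/-- The path `b 0, b 1, ...` in the cube of dimension `a` that steers the colouring. -/
structure GD (m a : ℕ) where
  b : ℕ → (Fin a → ZMod 2)
  κ : ℕ → Fin a
  nx : ℕ → ℕ
  hm : 3 ≤ m
  b0 : b 0 = 0
  bstep : ∀ j, j + 1 < m → b (j + 1) = b j + Pi.single (κ j) 1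
  binj : ∀ i j, i < m → j < m → b i = b j → i = j
  ksurj : ∀ x : Fin a, ∃ j, j + 1 < m ∧ κ j = x
  nxlt : ∀ j, j < nx j
  nxle : ∀ j, j + 1 < m → nx j + 1 ≤ m
  nxk : ∀ j, nx j + 1 < m → κ (nx j) = κ j
  nxmin : ∀ i j, j < i → i < nx j → κ i ≠ κ j
  τ : Fin a → ZMod 2
  r : ℕ
  top : Fin a
  hr1 : 1 ≤ r
  hr2 : r < m
  hτtop : τ top = 1
  hτ0 : ∀ j, j < m → b j ≠ τ
  hτr : b r + τ = b (m - 1)
  hτr' : ∀ j, j < m → b (r - 1) + τ ≠ b j

/-- brick G: the data exist (reflected Gray code) -/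
def StmG : Prop := ∀ m a : ℕ, Odd m → 3 ≤ m → m < 2 ^ a → 2 ^ a < 2 * m → Nonempty (GD m a)

/-- the torus of dimension `m` -/
def StmTorus : Prop := ∀ m a t : ℕ, Odd m → 3 ≤ m → m < 2 ^ a → 2 ^ a < 2 * m → 1 ≤ t →
  DecN (IsPk (m * 2 ^ (2 * m * t - a))) (2 ^ a) (torE m (4 ^ t))

end Pool.Agent.K3h88.Erde
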