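import Pool.Agent.K3h88.Erde.Stm2

/-!
# The merging lemma
-/

set_option autoImplicit false

namespace Pool.Agent.K3h88.Erde

/-- If every component of a graph of cycles loses at most one edge, reachability is kept. -/
theorem reach_keep {V X : Type} [Finite V] [AddCommGroup X] (H H' : SimpleGraph V)
    (φ : V → X) (D : AddSubgroup X) (hc : H.IsCycles)
    (hφ : ∀ y z, H.Adj y z → φ y - φ z ∈ D)
    (hone : ∀ y y' z z', H.Adj y y' → ¬ H'.Adj y y' → H.Adj z z' → ¬ H'.Adj z z' →
      φ y - φ z ∈ D → s(y, y') = s(z, z')) :
    ∀ y z, H.Reachable y z → H'.Reachable y z := by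
  classical
  have hadj : ∀ y z, H.Adj y z → H'.Reachable y z := by
    intro y z hyz
    by_cases h' : H'.Adj y z
    · exact h'.reachable
    obtain ⟨p⟩ := SimpleGraph.IsCycles.reachable_deleteEdges hyz hc
    -- walk along `p`
    have key : ∀ u v (p : (H.deleteEdges {s(y, z)}).Walk u v), φ y - φ u ∈ D →
        H'.Reachable u v := by
      intro u v p
      induction p with
      | nil => intro _; exact SimpleGraph.Reachable.refl _
      | @cons u x v hux q ih =>
        intro hu
        rw [SimpleGraph.deleteEdges_adj] at hux
        obtain ⟨h1, h2⟩ := hux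
        have hx : φ y - φ x ∈ D := by
          have := D.add_mem hu (hφ u x h1)
          simpa using this
        refine SimpleGraph.Reachable.trans ?_ (ih hx)
        by_cases h3 : H'.Adj u x
        · exact h3.reachable
        · exfalso
          apply h2
          have := hone y z u x hyz h' h1 h3 hu
          simp [this]
    exact key y z p (by simp [D.zero_mem])
  intro y z h
  obtain ⟨p⟩ := h
  induction p with
  | nil => exact SimpleGraph.Reachable.refl _
  | cons h _ ih => exact (hadj _ _ h).trans ih

theorem aml : StmAML := by
  classical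
  intro V X _ _ H H' W φ D w hW2 hW0 hφ hconn hone hlink hw y z hy hz hyz
  have hc : H.IsCycles := by
    intro v hv
    by_cases hvW : v ∈ W
    · exact hW2 v hvW
    · rw [hW0 v hvW] at hv
      exact absurd hv (by simp)
  have hkeep := reach_keep H H' φ D hc hφ hone
  have base : ∀ y z, y ∈ W → z ∈ W → φ y - φ z ∈ D → H'.Reachable y z := by
    intro y z hy hz h
    exact hkeep y z (hconn y z hy hz h)
  have step : ∀ k : ℕ, ∀ y z, y ∈ W → z ∈ W → φ z - φ y - k • w ∈ D → H'.Reachable y z := by
    intro k
    induction k with
    | zero =>
      intro y z hy hz h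
      apply base y z hy hz
      have := D.neg_mem h
      simpa using this
    | succ k ih =>
      intro y z hy hz h
      obtain ⟨z1, z1', h1, h1', h2, h3, h4⟩ := hlink y hy
      have r1 : H'.Reachable y z1 := by
        apply base y z1 hy h1
        have := D.neg_mem h2
        simpa using this
      have r2 : H'.Reachable z1' z := by
        apply ih z1' z h1' hz
        have := D.sub_mem h h3
        have e : φ z - φ y - (k + 1) • w - (φ z1' - φ y - w) = φ z - φ z1' - k • w := by
          rw [add_smul, one_smul]; abel
        rw [e] at this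
        exact this
      exact r1.trans (h4.reachable.trans r2)
  -- find a natural multiple
  rw [AddSubgroup.mem_sup] at hyz
  obtain ⟨d, hd, e, he, hde⟩ := hyz
  rw [AddSubgroup.mem_zmultiples_iff] at he
  obtain ⟨k, rfl⟩ := he
  have hmem : (-k) • w ∈ AddSubmonoid.multiples w := by
    rw [hw.mem_multiples_iff_mem_zmultiples]
    exact ⟨-k, rfl⟩
  obtain ⟨n, hn⟩ := hmem
  apply step n y z hy hz
  have hn' : n • w = (-k) • w := hn
  rw [hn']
  have : φ z - φ y - (-k) • w = -d := by
    have h5 : φ y - φ z = d + k • w := hde.symm
    have h6 : φ z - φ y = -(d + k • w) := by rw [← h5]; abel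
    rw [h6, neg_smul]; abel
  rw [this]
  exact D.neg_mem hd

end Pool.Agent.K3h88.Erde
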