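import Pool.Agent.K3h88.Erde.Stm2

/-!
# Basic facts on the data `GD`
-/

set_option autoImplicit false

namespace Pool.Agent.K3h88.Erde

theorem add_self2 {a : ℕ} (x : Fin a → ZMod 2) : x + x = 0 := by
  funext i
  exact CharTwo.add_self_eq_zero (x i)

theorem eq_add2 {a : ℕ} {x y z : Fin a → ZMod 2} (h : x + y = z) : x = z + y := by
  rw [← h, add_assoc, add_self2, add_zero]

theorem neg2 {a : ℕ} (x : Fin a → ZMod 2) : -x = x := by
  rw [neg_eq_iff_add_eq_zero, add_self2]

theorem st_zero (m L : ℕ) : st m L 0 = 0 := by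
  funext i; simp [st]

theorem st_succ (m L p : ℕ) : st m L (p + 1) = st m L p + ev m L p := by
  funext i
  simp only [st, ev, Pi.add_apply]
  rcases lt_trichotomy (i : ℕ) p with h | h | h
  · simp [h, Nat.lt_succ_of_lt h, h.ne]
  · simp [h]
  · have h1 : ¬ (i : ℕ) < p + 1 := by omega
    have h2 : ¬ (i : ℕ) < p := by omega
    have h3 : ¬ (i : ℕ) = p := by omega
    simp [h1, h2, h3]

namespace GD

variable {m a : ℕ} (G : GD m a)

theorem c_eq {l : ℕ} (h : l + 1 < m) : G.c l = Pi.single (G.κ l) 1 := by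
  simp only [c, if_pos h, G.bstep l h]
  rw [← add_assoc, add_self2, zero_add]

theorem c_eq' {l : ℕ} (h : l + 1 < m) : G.c l = G.b l + G.b (l + 1) := by
  simp only [c, if_pos h]

theorem c_last : G.c (m - 1) = G.b (m - 1) := by
  have := G.hm
  have h : ¬ (m - 1 + 1 < m) := by omega
  simp only [c, if_neg h]

theorem c_nx {s : ℕ} (h : G.nx s + 1 < m) : G.c (G.nx s) = G.c s := by
  have h1 := G.nxlt s
  rw [G.c_eq h, G.c_eq (by omega), G.nxk s h]

/-- no flip of `κ s` between `s + 1` and `nx s` -/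
theorem b_between {s : ℕ} (i : ℕ) (h1 : s < i) (h2 : i ≤ G.nx s) (h3 : i < m) :
    G.b i (G.κ s) = G.b (s + 1) (G.κ s) := by
  induction i with
  | zero => omega
  | succ i ih =>
    rcases Nat.eq_or_lt_of_le (Nat.lt_succ_iff.mp h1) with h | h
    · rw [h]
    · rw [G.bstep i h3, Pi.add_apply, ih h (by omega) (by omega)]
      have : G.κ i ≠ G.κ s := G.nxmin i s h (by omega)
      rw [Pi.single_eq_of_ne this.symm, add_zero]

theorem b_nx {s : ℕ} (h : G.nx s + 1 < m) : G.b (G.nx s) (G.κ s) = G.b (s + 1) (G.κ s) :=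
  G.b_between _ (G.nxlt s) le_rfl (by omega)

theorem b_s {s : ℕ} (h : s + 1 < m) : G.b s (G.κ s) = G.b (s + 1) (G.κ s) + 1 := by
  rw [G.bstep s h, Pi.add_apply, Pi.single_eq_same, add_assoc, CharTwo.add_self_eq_zero,
    add_zero]

theorem pidx_eq {p : ℕ} {δ : Fin a → ZMod 2} (hp : p < m) (h : G.b p = δ) : G.pidx δ = p := by
  have hex : ∃ p, p < m ∧ G.b p = δ := ⟨p, hp, h⟩
  rw [pidx, dif_pos hex]
  have := hex.choose_spec
  exact G.binj _ _ this.1 hp (this.2.trans h.symm)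

theorem cov_pidx {L : ℕ} {α : Fin a → ZMod 2} {z : Fin m → ZMod L} (h : G.Cov L α z) :
    G.pidx (G.chi L z + α) < m ∧ G.b (G.pidx (G.chi L z + α)) = G.chi L z + α := by
  have h' : ∃ p, p < m ∧ G.b p = G.chi L z + α := h
  rw [pidx, dif_pos h']
  exact h'.choose_spec

theorem phi_eq {L p : ℕ} {α : Fin a → ZMod 2} {z : Fin m → ZMod L} (hp : p < m)
    (h : G.b p = G.chi L z + α) : G.phi L α z = z - st m L p := by
  rw [phi, G.pidx_eq hp h]

theorem D_succ (L s : ℕ) : G.D L (s + 1) = G.D L s ⊔ AddSubgroup.zmultiples (G.ww L s) := by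
  rw [D, D, AddSubgroup.zmultiples_eq_closure, ← AddSubgroup.closure_union,
    Set.union_assoc]
  congr 2
  ext w
  simp only [Set.mem_setOf_eq, Set.mem_union, Set.mem_singleton_iff]
  constructor
  · rintro ⟨i, hi, rfl⟩
    rcases Nat.lt_succ_iff_lt_or_eq.mp hi with h | h
    · left; exact ⟨i, h, rfl⟩
    · right; rw [h]
  · rintro (⟨i, hi, rfl⟩ | rfl)
    · exact ⟨i, by omega, rfl⟩
    · exact ⟨s, by omega, rfl⟩

end GD

theorem AlgProps.chi_zero {m a : ℕ} {G : GD m a} {L : ℕ} (h : AlgProps G L) :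
    G.chi L 0 = 0 := by
  have := h.chi_add 0 0
  rw [add_zero] at this
  simpa using this

theorem AlgProps.chi_neg {m a : ℕ} {G : GD m a} {L : ℕ} (h : AlgProps G L)
    (y : Fin m → ZMod L) : G.chi L (-y) = G.chi L y := by
  have := h.chi_add y (-y)
  rw [add_neg_cancel, h.chi_zero] at this
  have h2 := eq_add2 this.symm
  rw [zero_add] at h2
  exact h2.symm

theorem AlgProps.chi_sub {m a : ℕ} {G : GD m a} {L : ℕ} (h : AlgProps G L)
    (y z : Fin m → ZMod L) : G.chi L (y - z) = G.chi L y + G.chi L z := by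
  rw [sub_eq_add_neg, h.chi_add, h.chi_neg]

theorem AlgProps.chi_st {m a : ℕ} {G : GD m a} {L : ℕ} (h : AlgProps G L) (p : ℕ)
    (hp : p < m) : G.chi L (st m L p) = G.b p := by
  induction p with
  | zero => rw [st_zero, h.chi_zero, G.b0]
  | succ p ih =>
    rw [st_succ, h.chi_add, ih (by omega), h.chi_ev p (by omega), G.c_eq' hp, ← add_assoc,
      add_self2, zero_add]

theorem AlgProps.chi_phi {m a : ℕ} {G : GD m a} {L : ℕ} (h : AlgProps G L)
    {α : Fin a → ZMod 2} {z : Fin m → ZMod L} (hz : G.Cov L α z) :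
    G.chi L (G.phi L α z) = α := by
  obtain ⟨h1, h2⟩ := G.cov_pidx hz
  rw [GD.phi, h.chi_sub, h.chi_st _ h1, h2, ← add_assoc, add_self2, zero_add]

end Pool.Agent.K3h88.Erde
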