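import Pool.Agent.K3h88.Erde.AML
import Pool.Agent.K3h88.Erde.Basic

/-!
# The components of the colour classes
-/

set_option autoImplicit false

namespace Pool.Agent.K3h88.Erde

open GD

theorem gr_adj {m a : ℕ} (G : GD m a) (L s : ℕ) (α : Fin a → ZMod 2) (y z : Fin m → ZMod L) :
    (G.gr L s α).Adj y z ↔ y ≠ z ∧ ((∃ l, l < m ∧ z = y + ev m L l ∧ G.T L s y l = α) ∨
      (∃ l, l < m ∧ y = z + ev m L l ∧ G.T L s z l = α)) := by
  rw [GD.gr, SimpleGraph.fromRel_adj]

theorem ev_ne_zero {m L l : ℕ} (hL : 4 ≤ L) (hl : l < m) : ev m L l ≠ 0 := by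
  intro h
  have h1 := congrFun h ⟨l, hl⟩
  have : Fact (1 < L) := ⟨by omega⟩
  simp [ev] at h1

/-- the generic step -/
theorem conn_step {m a : ℕ} (G : GD m a) (L : ℕ) (hL : 4 ≤ L) (hA : AlgProps G L)
    (hcol : ColProps G L)
    (hcongr : ∀ s (α : Fin a → ZMod 2) y z, s + 1 ≤ m → (G.gr L s α).Adj y z →
      G.phi L α y - G.phi L α z ∈ G.D L s)
    (s : ℕ) (hs : s + 1 < m) (α : Fin a → ZMod 2)
    (ih : ∀ y z, G.Cov L α y → G.Cov L α z → G.phi L α y - G.phi L α z ∈ G.D L s →
      (G.gr L s α).Reachable y z)
    (l0 lg pg pg' : ℕ) (hl0 : l0 < m) (hlg : lg < m) (hpg : pg < m) (hpg' : pg' < m)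
    (w : Fin m → ZMod L)
    (hlost : ∀ u l, l < m → G.T L s u l = α → G.T L (s + 1) u l ≠ α →
      G.A L s u ∧ l = l0 ∧ G.lam L s u l0 = l0)
    (hgain : ∀ z, G.A L s z → G.b pg = G.chi L z + α → G.T L (s + 1) z lg = α)
    (hpgc : G.b pg' = G.c lg + G.b pg)
    (hw : ev m L lg + st m L pg = st m L pg' + w) :
    ∀ y z, G.Cov L α y → G.Cov L α z →
      G.phi L α y - G.phi L α z ∈ G.D L s ⊔ AddSubgroup.zmultiples w →
      (G.gr L (s + 1) α).Reachable y z := by
  have : NeZero L := ⟨by omega⟩
  intro y z hy hz hyz
  refine aml (Fin m → ZMod L) (Fin m → ZMod L) (G.gr L s α) (G.gr L (s + 1) α)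
    {z | G.Cov L α z} (G.phi L α) (G.D L s) w (fun y hy => hcol.nb s α y (by omega) hy)
    (fun y hy => hcol.nb0 s α y (by omega) hy) (fun y z h => hcongr s α y z (by omega) h)
    (fun y z hy hz h => ih y z hy hz h) ?_ ?_ (isOfFinAddOrder_of_finite w) y z hy hz hyz
  · -- lost edges
    have key : ∀ y y', (G.gr L s α).Adj y y' → ¬ (G.gr L (s + 1) α).Adj y y' →
        ∃ u, G.A L s u ∧ s(y, y') = s(u, u + ev m L l0) ∧ G.phi L α y - G.phi L α u ∈ G.D L s ∧
          G.b l0 = G.chi L u + α := by
      intro y y' h h'
      have hh := h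
      rw [gr_adj] at h h'
      obtain ⟨hne, h | h⟩ := h
      · obtain ⟨l, hl, rfl, hT⟩ := h
        have hT' : G.T L (s + 1) y l ≠ α := fun hc => h' ⟨hne, Or.inl ⟨l, hl, rfl, hc⟩⟩
        obtain ⟨h1, h2, h3⟩ := hlost y l hl hT hT'
        refine ⟨y, h1, by rw [h2], by rw [sub_self]; exact (G.D L s).zero_mem, ?_⟩
        rw [h2, GD.T, h3] at hT
        rw [add_comm] at hT
        rw [eq_add2 hT, add_comm]
      · obtain ⟨l, hl, rfl, hT⟩ := h
        have hT' : G.T L (s + 1) y' l ≠ α := fun hc => h' ⟨hne, Or.inr ⟨l, hl, rfl, hc⟩⟩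
        obtain ⟨h1, h2, h3⟩ := hlost y' l hl hT hT'
        refine ⟨y', h1, by rw [h2]; exact Sym2.eq_swap, hcongr s α _ _ (by omega) hh, ?_⟩
        rw [h2, GD.T, h3] at hT
        rw [add_comm] at hT
        rw [eq_add2 hT, add_comm]
    intro y y' z z' h1 h1' h2 h2' hd
    obtain ⟨u, hu1, hu2, hu3, hu4⟩ := key y y' h1 h1'
    obtain ⟨v, hv1, hv2, hv3, hv4⟩ := key z z' h2 h2'
    have huv : u = v := by
      apply hA.uniq s hs u v hu1 hv1
      have e1 : G.phi L α u - G.phi L α v = u - v := by
        rw [G.phi_eq hl0 hu4, G.phi_eq hl0 hv4]; abel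
      rw [← e1]
      have e2 : G.phi L α u - G.phi L α v = -(G.phi L α y - G.phi L α u) +
          (G.phi L α y - G.phi L α z) + (G.phi L α z - G.phi L α v) := by abel
      rw [e2]
      exact (G.D L s).add_mem ((G.D L s).add_mem ((G.D L s).neg_mem hu3) hd) hv3
    rw [hu2, hv2, huv]
  · -- links
    intro y hy
    have hy' : G.Cov L α y := hy
    obtain ⟨d, hd, hAd⟩ := hA.norm s hs (G.phi L α y + st m L pg)
    have hchi : G.chi L (G.phi L α y + st m L pg + d) = α + G.b pg := by
      rw [hA.chi_add, hA.chi_add, hA.chi_phi hy', hA.chi_st _ hpg, hA.le_ker s (by omega) d hd,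
        add_zero]
    have hb : G.b pg = G.chi L (G.phi L α y + st m L pg + d) + α := by
      rw [hchi, add_comm α, add_assoc, add_self2, add_zero]
    have hb' : G.b pg' = G.chi L (G.phi L α y + st m L pg + d + ev m L lg) + α := by
      rw [hA.chi_add, hA.chi_ev lg hlg, hpgc, hb]; abel
    have hphi1 := G.phi_eq hpg hb
    have hphi2 := G.phi_eq hpg' hb'
    refine ⟨G.phi L α y + st m L pg + d, G.phi L α y + st m L pg + d + ev m L lg,
      ⟨pg, hpg, hb⟩, ⟨pg', hpg', hb'⟩, ?_, ?_, ?_⟩
    · rw [hphi1]
      have : G.phi L α y + st m L pg + d - st m L pg - G.phi L α y = d := by abel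
      rw [this]; exact hd
    · rw [hphi2]
      have : G.phi L α y + st m L pg + d + ev m L lg - st m L pg' - G.phi L α y - w =
          d + (ev m L lg + st m L pg - (st m L pg' + w)) := by abel
      rw [this, hw, sub_self, add_zero]; exact hd
    · rw [gr_adj]
      refine ⟨?_, Or.inl ⟨lg, hlg, rfl, hgain _ hAd hb⟩⟩
      intro h
      exact ev_ne_zero hL hlg (left_eq_add.mp h)

open Classical in
theorem lam_succ {m a : ℕ} (G : GD m a) (L s : ℕ) (z : Fin m → ZMod L) (l : ℕ) :
    G.lam L (s + 1) z l = if G.A L s z then
        (if G.nx s + 1 < m then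
          (if G.role L s z then (if l = s then G.nx s else if l = G.nx s then s
            else G.lam L s z l)
           else G.lam L s z l)
         else (if l = s then s + 1 else G.lam L s z l))
      else G.lam L s z l := rfl

theorem zm_neg {X : Type} [AddCommGroup X] (w : X) :
    AddSubgroup.zmultiples (-w) = AddSubgroup.zmultiples w := by
  ext x
  constructor
  · rintro ⟨k, rfl⟩
    exact ⟨-k, by simp⟩
  · rintro ⟨k, rfl⟩
    exact ⟨-k, by simp⟩

theorem z2_cases (x : ZMod 2) : x = 0 ∨ x = 1 := by
  revert x; decide

theorem z2_ne {x y : ZMod 2} (h : x ≠ y) : x = y + 1 := by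
  revert h; revert x y; decide

theorem z2_ne' {y : ZMod 2} : y + 1 ≠ y := by
  revert y; decide

theorem conn : StmConn := by
  intro m a G L hL h2 hA hlam hcol hcongr h0 s
  induction s with
  | zero => intro α y z _ hy hz h; exact h0 α y z hy hz h
  | succ s ih =>
    intro α y z hs hy hz hyz
    have hs' : s + 1 < m := by omega
    have ih' := fun y z => ih α y z (by omega)
    have hnlt := G.nxlt s
    rw [G.D_succ] at hyz
    by_cases hS : G.nx s + 1 < m
    · have hww : G.ww L s = ev m L s - ev m L (G.nx s) := by rw [ww, if_pos hS]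
      have hκ : ∀ z, G.role L s z → G.chi L z (G.κ s) = G.b (s + 1) (G.κ s) + 1 :=
        fun z h => z2_ne h
      rcases z2_cases (α (G.κ s)) with hα | hα
      · -- first role
        refine conn_step G L hL hA hcol hcongr s hs' α ih' s (G.nx s) s (s + 1) (by omega)
          (by omega) (by omega) (by omega) (-G.ww L s) ?_ ?_ ?_ ?_ y z hy hz ?_
        · intro u l hl hT hT'
          by_cases hAu : G.A L s u
          · refine ⟨hAu, ?_, hlam.lam_s s u hs' hAu⟩
            by_contra hls
            by_cases hr : G.role L s u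
            · by_cases hln : l = G.nx s
              · rw [hln, T, hlam.lam_n s u hS hAu] at hT
                have h3 := congrFun hT (G.κ s)
                rw [Pi.add_apply, hκ u hr, G.b_nx hS, hα] at h3
                revert h3
                generalize G.b (s + 1) (G.κ s) = t
                revert t; decide
              · apply hT'
                rw [T, lam_succ, if_pos hAu, if_pos hS, if_pos hr, if_neg hls, if_neg hln]
                exact hT
            · apply hT'
              rw [T, lam_succ, if_pos hAu, if_pos hS, if_neg hr]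
              exact hT
          · exfalso
            apply hT'
            rw [T, lam_succ, if_neg hAu]
            exact hT
        · intro z hz hb
          have hr : G.role L s z := by
            have h3 := congrFun hb (G.κ s)
            rw [Pi.add_apply, hα, add_zero, G.b_s hs'] at h3
            rw [role, ← h3]
            exact z2_ne'
          rw [T, lam_succ, if_pos hz, if_pos hS, if_pos hr, if_neg (by omega), if_pos rfl, hb,
            ← add_assoc, add_self2, zero_add]
        · rw [G.c_nx hS, G.c_eq' hs']
          rw [add_comm (G.b s), add_assoc, add_self2, add_zero]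
        · rw [st_succ, hww]; abel
        · rw [zm_neg]; exact hyz
      · -- second role
        refine conn_step G L hL hA hcol hcongr s hs' α ih' (G.nx s) s (G.nx s) (G.nx s + 1)
          (by omega) (by omega) (by omega) (by omega) (G.ww L s) ?_ ?_ ?_ ?_ y z hy hz ?_
        · intro u l hl hT hT'
          by_cases hAu : G.A L s u
          · refine ⟨hAu, ?_, hlam.lam_n s u hS hAu⟩
            by_contra hls
            by_cases hr : G.role L s u
            · by_cases hln : l = s
              · rw [hln, T, hlam.lam_s s u hs' hAu] at hT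
                have h3 := congrFun hT (G.κ s)
                rw [Pi.add_apply, hκ u hr, G.b_s hs', hα] at h3
                revert h3
                generalize G.b (s + 1) (G.κ s) = t
                revert t; decide
              · apply hT'
                rw [T, lam_succ, if_pos hAu, if_pos hS, if_pos hr, if_neg hln, if_neg hls]
                exact hT
            · apply hT'
              rw [T, lam_succ, if_pos hAu, if_pos hS, if_neg hr]
              exact hT
          · exfalso
            apply hT'
            rw [T, lam_succ, if_neg hAu]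
            exact hT
        · intro z hz hb
          have hr : G.role L s z := by
            have h3 := congrFun hb (G.κ s)
            rw [Pi.add_apply, hα, G.b_nx hS] at h3
            rw [role, h3]
            exact fun h => z2_ne' h.symm
          rw [T, lam_succ, if_pos hz, if_pos hS, if_pos hr, if_pos rfl, hb,
            ← add_assoc, add_self2, zero_add]
        · rw [← G.c_nx hS, G.c_eq' hS]
          rw [add_comm (G.b (G.nx s)), add_assoc, add_self2, add_zero]
        · rw [st_succ, hww]; abel
        · exact hyz
    · -- h-stage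
      have hww : G.ww L s = ev m L s + ev m L s := by rw [ww, if_neg hS]
      refine conn_step G L hL hA hcol hcongr s hs' α ih' s s (s + 1) s (by omega)
          (by omega) (by omega) (by omega) (G.ww L s) ?_ ?_ ?_ ?_ y z hy hz ?_
      · intro u l hl hT hT'
        by_cases hAu : G.A L s u
        · refine ⟨hAu, ?_, hlam.lam_s s u hs' hAu⟩
          by_contra hls
          apply hT'
          rw [T, lam_succ, if_pos hAu, if_neg hS, if_neg hls]
          exact hT
        · exfalso
          apply hT'
          rw [T, lam_succ, if_neg hAu]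
          exact hT
      · intro z hz hb
        rw [T, lam_succ, if_pos hz, if_neg hS, if_pos rfl, hb, ← add_assoc, add_self2, zero_add]
      · rw [G.c_eq' hs', add_assoc, add_self2, add_zero]
      · rw [st_succ, hww]; abel
      · exact hyz

end Pool.Agent.K3h88.Erde
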