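import Pool.Agent.K3h88.Erde.Torus
import Pool.Agent.K3h11.Erde.P12
import Pool.Agent.K3h11.Erde.KT1
import Pool.Agent.K3h62.Erde.Plumb
import Pool.Agent.K3h34.Erde.K0
import Pool.Agent.K3h92.Erde.T0X
import Pool.Agent.K3h92.Erde.T0D
import Pool.Agent.K3h77.Erde.T0Y
import Pool.Agent.K3h18.Erde.TZ
import Pool.Agent.K3h48.Erde.H5
import Pool.Agent.K3h4.Erde.Rec
import Pool.Agent.K3h19.Erde.Asm

/-!
# Assembly
-/

set_option autoImplicit false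

namespace Pool.Agent.K3h88.Erde

open Pool.Agent.K3h11.Erde (p1a p1b p1c p1d p1e p1f p2a p2b p2c)
open Pool.Agent.K3h62.Erde (p3a p3b p3c p3d p3e p4a p4b p4c)

theorem t0b : StmT0b :=
  Pool.Agent.K3h11.Erde.t0b Pool.Agent.K3h92.Erde.t0x Pool.Agent.K3h77.Erde.t0y
    Pool.Agent.K3h18.Erde.t0z Pool.Agent.K3h92.Erde.t0d

theorem k1 : StmK1 := Pool.Agent.K3h11.Erde.k1 p1a p1c p2c p3c Pool.Agent.K3h34.Erde.k0

theorem t1 : StmT1 := Pool.Agent.K3h11.Erde.t1 p1a p1c p2c p3c Pool.Agent.K3h34.Erde.t0a t0b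

/-- Hamiltonian decompositions of the even cubes -/
theorem hcd : StmHCD :=
  Pool.Agent.K3h4.Erde.hcd k1 t1 Pool.Agent.K3h48.Erde.h5 p1a p1c p1d p1f p3a p3b p3c p4a p4b

theorem fb (hlamp : StmLam) : StmFB :=
  Pool.Agent.K3h19.Erde.fb hcd (torus hlamp) p1a p1b p1e p2a p2b p2c p3d p3e p4a p4c

end Pool.Agent.K3h88.Erde
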