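import Pool.Agent.K3h88.Erde.Conn

/-!
# The colouring function
-/

set_option autoImplicit false

namespace Pool.Agent.K3h88.Erde

open GD

theorem cast_val_ne {L : ℕ} (hL : 4 ≤ L) {x y : ZMod 2} (h : x ≠ y) :
    ((x.val : ℕ) : ZMod L) ≠ ((y.val : ℕ) : ZMod L) := by
  have : Fact (1 < L) := ⟨by omega⟩
  have h01 : (0 : ZMod L) ≠ 1 := zero_ne_one
  rcases z2_cases x with rfl | rfl <;> rcases z2_cases y with rfl | rfl
  · exact absurd rfl h
  · simpa [ZMod.val_one] using h01
  · simpa [ZMod.val_one] using h01.symm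
  · exact absurd rfl h

theorem vv_cases {m a : ℕ} (G : GD m a) (L s : ℕ) : G.vv L s = 0 ∨ G.vv L s = 1 := by
  rw [vv]
  rcases z2_cases (G.b (s + 1) (G.κ s)) with h | h
  · left; rw [h]; simp
  · right; rw [h]; simp [ZMod.val_one]

theorem vv_ne {m a : ℕ} (G : GD m a) {L : ℕ} (hL : 4 ≤ L) {j s : ℕ} (h : G.nx j = s)
    (hs : s + 1 < m) : G.vv L j ≠ G.vv L s := by
  subst h
  have h1 := G.b_nx hs
  have h2 := G.b_s hs
  have h3 := G.nxk j hs
  rw [vv, vv]
  apply cast_val_ne hL
  intro h
  rw [h3] at h h2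
  rw [h1, ← h] at h2
  exact z2_ne' h2.symm

theorem lamp : StmLam := by
  intro m a G L hL h2
  have hm := G.hm
  have lam_s : ∀ s z, s + 1 < m → G.A L s z → ∀ j, j ≤ s → G.lam L j z s = s := by
    intro s z hs hA j
    induction j with
    | zero => intro _; rfl
    | succ j ih =>
      intro hj
      have ih' := ih (by omega)
      rw [lam_succ]
      split_ifs with h1 h3 h4 h5 h6 h7
      · omega
      · exfalso
        apply vv_ne G hL h6.symm hs
        rw [← h1.1 ⟨m - 1, by omega⟩ rfl, ← hA.1 ⟨m - 1, by omega⟩ rfl]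
      · exact ih'
      · exact ih'
      · omega
      · exact ih'
      · exact ih'
  have lam_n : ∀ s z, G.nx s + 1 < m → ∀ j, j ≤ s → G.lam L j z (G.nx s) = G.nx s := by
    intro s z hs j
    have hlt := G.nxlt s
    induction j with
    | zero => intro _; rfl
    | succ j ih =>
      intro hj
      have ih' := ih (by omega)
      rw [lam_succ]
      split_ifs with h1 h3 h4 h5 h6 h7
      · omega
      · exfalso
        have h8 := G.nxmin s j (by omega) (by omega)
        apply h8
        rw [← G.nxk s hs, ← G.nxk j h3, h6]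
      · exact ih'
      · exact ih'
      · omega
      · exact ih'
      · exact ih'
  have lam_form : ∀ s z l, s + 1 ≤ m → l < m → G.lam L s z l = l ∨
    (l < s ∧ G.nx l + 1 < m ∧ G.lam L s z l = G.nx l) ∨
    (l < s ∧ ¬ G.nx l + 1 < m ∧ G.lam L s z l = l + 1) ∨
    (∃ j, j < s ∧ G.nx j = l ∧ G.nx j + 1 < m ∧ G.lam L s z l = j) := by
    intro s z l hs hl
    induction s with
    | zero => left; rfl
    | succ s ih =>
      have ih' := ih (by omega)
      have lift : ∀ x, x = G.lam L s z l → (x = l ∨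
          (l < s + 1 ∧ G.nx l + 1 < m ∧ x = G.nx l) ∨
          (l < s + 1 ∧ ¬ G.nx l + 1 < m ∧ x = l + 1) ∨
          (∃ j, j < s + 1 ∧ G.nx j = l ∧ G.nx j + 1 < m ∧ x = j)) := by
        intro x hx
        subst hx
        rcases ih' with h | ⟨h1, h2, h3⟩ | ⟨h1, h2, h3⟩ | ⟨j, h1, h2, h3, h4⟩
        · left; exact h
        · right; left; exact ⟨by omega, h2, h3⟩
        · right; right; left; exact ⟨by omega, h2, h3⟩
        · right; right; right; exact ⟨j, by omega, h2, h3, h4⟩
      rw [lam_succ]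
      split_ifs with h1 h3 h4 h5 h6 h7
      · right; left; subst h5; exact ⟨by omega, h3, rfl⟩
      · right; right; right; exact ⟨s, by omega, h6.symm, h3, rfl⟩
      · exact lift _ rfl
      · exact lift _ rfl
      · right; right; left; subst h7; exact ⟨by omega, h3, rfl⟩
      · exact lift _ rfl
      · exact lift _ rfl
  refine ⟨fun s z hs hA => lam_s s z hs hA s le_rfl, fun s z hs _ => lam_n s z hs s le_rfl,
    ?_, ?_, ?_, lam_form⟩
  · intro s z hs
    rcases lam_form s z (m - 1) hs (by omega) with h | ⟨h1, h2, h3⟩ | ⟨h1, h2, h3⟩ |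
      ⟨j, h1, h2, h3, h4⟩
    · exact h
    · omega
    · omega
    · omega
  · intro s z l hz
    induction s with
    | zero => rfl
    | succ s ih =>
      have h1 : ¬ G.A L s z := by
        intro h
        have h2 := h.1 ⟨m - 1, by omega⟩ rfl
        obtain ⟨h3, h4⟩ := hz ⟨m - 1, by omega⟩ rfl
        rcases vv_cases G L s with h5 | h5
        · exact h3 (h2.trans h5)
        · exact h4 (h2.trans h5)
      rw [lam_succ, if_neg h1, ih]
  · intro s z l hs hl
    rcases lam_form s z l hs hl with h | ⟨h1, h2, h3⟩ | ⟨h1, h2, h3⟩ | ⟨j, h1, h2, h3, h4⟩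
    · omega
    · omega
    · omega
    · omega

end Pool.Agent.K3h88.Erde
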