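import Pool.Agent.K3h88.Erde.Conn
import Pool.Agent.K3h19.Erde.Gray
import Pool.Agent.K3h48.Erde.Alg
import Pool.Agent.K3h92.Erde.Col
import Pool.Agent.K3h34.Erde.Congr
import Pool.Agent.K3h77.Erde.CycEx
import Pool.Agent.K3h4.Erde.Paths

/-!
# The torus of odd dimension
-/

set_option autoImplicit false

namespace Pool.Agent.K3h88.Erde

open GD

theorem torus (hlamp : StmLam) : StmTorus := by
  intro m a t hodd hm h1 h2 ht
  obtain ⟨G⟩ := Pool.Agent.K3h19.Erde.gray m a hodd hm h1 h2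
  have hL : 4 ≤ 4 ^ t := by
    calc 4 = 4 ^ 1 := by norm_num
      _ ≤ 4 ^ t := Nat.pow_le_pow_right (by norm_num) ht
  have hL2 : 2 ∣ 4 ^ t := (by norm_num : 2 ∣ 4).trans (dvd_pow_self 4 (by omega))
  have hA := Pool.Agent.K3h48.Erde.alg m a G (4 ^ t) hL hL2
  have hlam := hlamp m a G (4 ^ t) hL hL2
  have hcol := Pool.Agent.K3h92.Erde.col m a G (4 ^ t) hL hL2 hA hlam
  have hcongr := Pool.Agent.K3h34.Erde.congr m a G (4 ^ t) hL hL2 hA hlam
  have h0 := Pool.Agent.K3h34.Erde.conn0 m a G (4 ^ t) hL hL2 hA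
  have hconn := conn m a G (4 ^ t) hL hL2 hA hlam hcol hcongr h0
  refine Pool.Agent.K3h4.Erde.paths Pool.Agent.K3h77.Erde.cyc Pool.Agent.K3h77.Erde.ex
    m a t G ht hA hlam hcol ?_
  intro α y z hy hz
  refine hconn (m - 1) α y z (by omega) hy hz (hA.ker _ ?_)
  rw [hA.chi_sub, hA.chi_phi hy, hA.chi_phi hz, add_self2]

end Pool.Agent.K3h88.Erde
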